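import Mathlib

set_option autoImplicit false

namespace Pool.Agent.Results.MP_14f8d9_co.Counterexample

open Finset

/-- A family of `k`-subsets such that two distinct points lie in exactly `lam` blocks. -/
def IsDesign {Δ L : Type} (blk : L → Finset Δ) (k lam : ℕ) : Prop :=
  (∀ b, (blk b).card = k) ∧ ∀ x y, x ≠ y → {b | x ∈ blk b ∧ y ∈ blk b}.ncard = lam

/-- The input of the construction. `P` indexes the parallel classes of the first design. -/
structure Input (Δ₀ Δ₁ L₀ L₁ L₂ P : Type) where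
  blk₀ : L₀ → Finset Δ₀
  cls : L₀ → P
  design₀ : ∃ k₀ lam₀, IsDesign blk₀ k₀ lam₀
  parallel : ∀ p x, ∃! l, cls l = p ∧ x ∈ blk₀ l
  size : ∃ s, ∀ p, {l | cls l = p}.ncard = s
  blk₁ : L₁ → Finset Δ₁
  design₁ : ∃ lam₁, IsDesign blk₁ (Nat.card P) lam₁
  symm : Nat.card L₁ = Nat.card Δ₁
  ψ : L₁ → P → Δ₁
  bij : ∀ β, Set.BijOn (ψ β) Set.univ (blk₁ β)
  uniq : ∀ p i, ∃! β, ψ β p = i
  blk₂ : L₂ → Finset L₀
  size₂ : ∃ k₂ ≤ Nat.card P, ∀ γ, (blk₂ γ).card = k₂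
  transversal : ∀ γ, Set.InjOn cls (blk₂ γ)
  pairs : ∃ lam₂, ∀ l m, cls l ≠ cls m → {γ | l ∈ blk₂ γ ∧ m ∈ blk₂ γ}.ncard = lam₂

/-- The output block `B_β(γ)`. -/
def Input.block {Δ₀ Δ₁ L₀ L₁ L₂ P : Type} (I : Input Δ₀ Δ₁ L₀ L₁ L₂ P) (β : L₁) (γ : L₂) :
    Set (Δ₀ × Δ₁) :=
  {z | ∃ l ∈ I.blk₂ γ, I.ψ β (I.cls l) = z.2 ∧ z.1 ∈ I.blk₀ l}

/-- The design is isomorphic to an output of the construction with `v₀, v₁ ≥ 2`. -/
def Arises {V : Type} (𝓑 : Finset (Finset V)) : Prop :=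
  ∃ (Δ₀ Δ₁ L₀ L₁ L₂ P : Type) (_ : Finite L₀) (_ : Finite L₁) (_ : Finite L₂) (_ : Finite P)
    (I : Input Δ₀ Δ₁ L₀ L₁ L₂ P) (e : V ≃ Δ₀ × Δ₁), 2 ≤ Nat.card Δ₀ ∧ 2 ≤ Nat.card Δ₁ ∧
      {C | ∃ B ∈ 𝓑, C = e '' B} = {C | ∃ β γ, C = I.block β γ}

theorem not_arises (𝓑 : Finset (Finset (Fin 15))) (B : Finset (Fin 15)) (hB : B ∈ 𝓑)
    (h : B.card = 8) : ¬ Arises 𝓑 := by
  classical
  rintro ⟨Δ₀, Δ₁, L₀, L₁, L₂, P, _, _, _, _, I, e, h0, h1, h2⟩
  obtain ⟨β, γ, h3⟩ := h2.le ⟨B, hB, rfl⟩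
  have := Nat.finite_of_card_ne_zero (α := Δ₀) (by omega)
  have := Nat.finite_of_card_ne_zero (α := Δ₁) (by omega)
  have := Fintype.ofFinite Δ₀
  have := Fintype.ofFinite L₀
  have h4 : Nat.card Δ₀ * Nat.card Δ₁ = 15 := by
    rw [← Nat.card_prod, ← Nat.card_congr e]; simp
  obtain ⟨k₀, _, h5, -⟩ := I.design₀
  obtain ⟨k₂, h6, h7⟩ := I.size₂
  have h8 : k₂ * k₀ = 8 := by
    have : I.block β γ = ((I.blk₂ γ).biUnion fun l => I.blk₀ l ×ˢ {I.ψ β (I.cls l)} :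
        Finset (Δ₀ × Δ₁)) := by
      ext ⟨x, j⟩
      simp [Input.block, and_comm, eq_comm, and_assoc, and_left_comm]
    have h9 := congrArg Set.ncard h3
    rw [Set.ncard_image_of_injective _ e.injective, this, Set.ncard_coe_finset,
      Set.ncard_coe_finset, card_biUnion, h] at h9
    · simp [h9, h5, h7]
    · intro l hl m hm hlm
      refine disjoint_product.mpr (Or.inr (disjoint_singleton.mpr fun h => hlm ?_))
      exact I.transversal γ hl hm ((I.bij β).injOn trivial trivial h)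
  obtain ⟨l, -⟩ : (I.blk₂ γ).Nonempty := card_pos.mp (by
    rw [h7, Nat.pos_iff_ne_zero]
    rintro rfl
    simp at h8)
  have h9 : k₀ ∣ Nat.card Δ₀ := by
    have : (univ : Finset Δ₀) = (univ.filter fun m => I.cls m = I.cls l).biUnion I.blk₀ := by
      ext x
      simpa using (I.parallel (I.cls l) x).exists
    rw [Nat.card_eq_fintype_card, ← card_univ, this, card_biUnion]
    · simp [h5]
    · intro a ha b hb hab
      refine disjoint_left.mpr fun x h1 h2 => hab ?_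
      exact (I.parallel (I.cls l) x).unique ⟨by simpa using ha, h1⟩ ⟨by simpa using hb, h2⟩
  have h10 : k₀ = 1 := Nat.eq_one_of_dvd_coprimes (by norm_num : Nat.Coprime 8 15)
    (h8 ▸ Dvd.intro_left _ rfl) (h4 ▸ h9.mul_right _)
  have h11 : Nat.card P ≤ Nat.card Δ₁ :=
    Nat.card_le_card_of_injective (I.ψ β) fun a b h => (I.bij β).injOn trivial trivial h
  subst h10
  nlinarith

def blk (j : Fin 15) : Finset (Fin 15) := ({3, 6, 7, 9, 11, 12, 13, 14} : Finset _).image (· + j)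

def gen : Fin 3 → Equiv.Perm (Fin 15) :=
  ![Equiv.addRight 1, ⟨(2 * ·), (8 * ·), by decide, by decide⟩,
    ⟨![4, 2, 11, 8, 10, 9, 7, 1, 13, 0, 14, 12, 6, 3, 5],
      ![9, 7, 1, 13, 0, 14, 12, 6, 3, 5, 4, 2, 11, 8, 10], by decide, by decide⟩]

def genB : Fin 3 → Fin 15 → Fin 15 :=
  ![(· + 1), (2 * ·), ![9, 7, 6, 8, 5, 14, 12, 11, 13, 10, 4, 2, 1, 3, 0]]

theorem gen_blk : ∀ i j, (blk j).image (gen i) = blk (genB i j) := by decide +kernel

def orb : ℕ → Finset (Fin 15 × Fin 15)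
  | 0 => {(3, 0)}
  | n + 1 => orb n ∪ univ.biUnion fun i => (orb n).image fun z => (gen i z.1, genB i z.2)

theorem result : ∃ 𝓑 : Finset (Finset (Fin 15)),
    IsDesign (Subtype.val : 𝓑 → Finset (Fin 15)) 8 4 ∧ 𝓑.card = 15 ∧
    (∃ G : Subgroup (Equiv.Perm (Fin 15)), (∀ g ∈ G, ∀ B ∈ 𝓑, B.image g ∈ 𝓑) ∧
      (∀ B ∈ 𝓑, ∀ x ∈ B, ∀ C ∈ 𝓑, ∀ y ∈ C, ∃ g ∈ G, g x = y ∧ B.image g = C) ∧
      ∃ s : Setoid (Fin 15), s ≠ ⊥ ∧ s ≠ ⊤ ∧ ∀ g ∈ G, ∀ x y, s (g x) (g y) ↔ s x y) ∧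
    ¬ Arises 𝓑 := by
  refine ⟨univ.image blk, ⟨by decide +kernel, fun x y h => ?_⟩, by decide +kernel,
    ⟨Subgroup.closure (Set.range gen), fun g hg => ?_, ?_, Setoid.ker fun x => x.1 % 5,
      fun h => ?_, fun h => ?_, fun g hg => ?_⟩,
    not_arises _ (blk 0) (mem_image_of_mem _ (mem_univ _)) (by decide +kernel)⟩
  · rw [Set.ncard_eq_toFinset_card']
    revert x y
    decide +kernel
  · rw [← Subgroup.mem_toSubmonoid, Subgroup.closure_toSubmonoid_of_finite] at hg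
    induction hg using Submonoid.closure_induction with
    | mem g hg =>
      obtain ⟨i, rfl⟩ := hg
      simp only [mem_image, mem_univ, true_and]
      rintro _ ⟨j, rfl⟩
      exact ⟨_, (gen_blk i j).symm⟩
    | one => simp
    | mul a b _ _ ha hb =>
      intro B hB
      rw [Equiv.Perm.coe_mul, ← image_image]
      exact ha _ (hb _ hB)
  · have h1 : ∀ n, ∀ z ∈ orb n, ∃ g ∈ Subgroup.closure (Set.range gen),
        g 3 = z.1 ∧ (blk 0).image g = blk z.2 := fun n => by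
      induction n with
      | zero => simpa [orb] using ⟨1, Subgroup.one_mem _, by simp⟩
      | succ n ih =>
        simp only [orb, mem_union, mem_biUnion, mem_image]
        rintro _ (h | ⟨i, -, z, hz, rfl⟩)
        · exact ih _ h
        · obtain ⟨g, h1, h2, h3⟩ := ih z hz
          exact ⟨gen i * g, Subgroup.mul_mem _ (Subgroup.subset_closure ⟨i, rfl⟩) h1, by simp [h2],
            by rw [Equiv.Perm.coe_mul, ← image_image, h3, gen_blk]⟩
    have h2 : ∀ j, ∀ x ∈ blk j, (x, j) ∈ orb 6 := by decide +kernel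
    simp only [mem_image, mem_univ, true_and]
    rintro _ ⟨i, rfl⟩ x hx _ ⟨j, rfl⟩ y hy
    obtain ⟨g, h3, h4, h5⟩ := h1 _ _ (h2 i x hx)
    obtain ⟨g', h6, h7, h8⟩ := h1 _ _ (h2 j y hy)
    refine ⟨g' * g⁻¹, Subgroup.mul_mem _ h6 (Subgroup.inv_mem _ h3), ?_, ?_⟩
    · simp only at h4
      simp [← h4, h7]
    · simp only at h5
      rw [← h5, image_image, ← h8]
      congr 1
      ext x
      simp
  · exact absurd (Setoid.ext_iff.mp h 0 5) (by simp [Setoid.ker_def])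
  · exact absurd (Setoid.ext_iff.mp h 0 1) (by simp [Setoid.ker_def])
  · induction hg using Subgroup.closure_induction with
    | mem g hg =>
      obtain ⟨i, rfl⟩ := hg
      simp only [Setoid.ker_def]
      revert i
      decide +kernel
    | one => simp
    | mul a b _ _ ha hb => exact fun x y => (ha _ _).trans (hb x y)
    | inv a _ ha => exact fun x y => by simpa using (ha (a⁻¹ x) (a⁻¹ y)).symm

end Pool.Agent.Results.MP_14f8d9_co.Counterexample
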